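import Mathlib

set_option autoImplicit false

/-!
# Word laws of stationary 2-dependent 3-colourings and the random insertion semigroup
-/

namespace Pool.Agent.H588R3.TC

/-- A word is proper if adjacent letters differ. -/
def Proper (w : List (Fin 3)) : Prop := List.IsChain (· ≠ ·) w

instance (w : List (Fin 3)) : Decidable (Proper w) := by unfold Proper; infer_instance

/-- Sum of `f` over all deletions of one letter. -/
def sdel : (List (Fin 3) → ℝ) → List (Fin 3) → ℝ
  | _, [] => 0
  | f, a :: l => f l + sdel (fun m => f (a :: m)) l

theorem sdel_append (f : List (Fin 3) → ℝ) (x y : List (Fin 3)) :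
    sdel f (x ++ y) = sdel (fun m => f (m ++ y)) x + sdel (fun m => f (x ++ m)) y := by
  induction x generalizing f with
  | nil => simp [sdel]
  | cons a x ih =>
    simp only [List.cons_append, sdel]
    rw [ih]
    ring

theorem sdel_congr {f g : List (Fin 3) → ℝ} (x : List (Fin 3))
    (h : ∀ m, m.length + 1 = x.length → f m = g m) : sdel f x = sdel g x := by
  induction x generalizing f g with
  | nil => rfl
  | cons a x ih =>
    simp only [sdel]
    rw [h x (by simp), ih]
    intro m hm
    apply h
    simp [hm]

theorem sdel_zero (x : List (Fin 3)) : sdel (fun _ => 0) x = 0 := by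
  induction x with
  | nil => rfl
  | cons a x ih => simp only [sdel, ih]; ring

theorem sdel_mul (c : ℝ) (f : List (Fin 3) → ℝ) (x : List (Fin 3)) :
    sdel (fun m => c * f m) x = c * sdel f x := by
  induction x generalizing f with
  | nil => simp [sdel]
  | cons a x ih => simp only [sdel]; rw [ih]; ring

theorem sdel_add (f g : List (Fin 3) → ℝ) (x : List (Fin 3)) :
    sdel (fun m => f m + g m) x = sdel f x + sdel g x := by
  induction x generalizing f g with
  | nil => simp [sdel]
  | cons a x ih => simp only [sdel]; rw [ih]; ring

theorem sdel_sum {ι : Type*} (s : Finset ι) (f : ι → List (Fin 3) → ℝ) (x : List (Fin 3)) :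
    ∑ a ∈ s, sdel (f a) x = sdel (fun m => ∑ a ∈ s, f a m) x := by
  induction x generalizing f with
  | nil => simp [sdel]
  | cons c x ih =>
    simp only [sdel]
    rw [Finset.sum_add_distrib, ih]

theorem sdel_nonneg (f : List (Fin 3) → ℝ) (hf : ∀ m, 0 ≤ f m) (x : List (Fin 3)) :
    0 ≤ sdel f x := by
  induction x generalizing f with
  | nil => simp [sdel]
  | cons a x ih => simp only [sdel]; exact add_nonneg (hf _) (ih _ (fun m => hf _))

theorem not_proper_double (x y : List (Fin 3)) (a : Fin 3) : ¬ Proper (x ++ a :: a :: y) := by
  unfold Proper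
  intro h
  rw [List.isChain_append] at h
  have := h.2.1
  simp at this

theorem proper_mid {x y : List (Fin 3)} {a : Fin 3} (hx : Proper x) (hy : Proper y)
    (h1 : x.getLast? ≠ some a) (h2 : y.head? ≠ some a) : Proper (x ++ a :: y) := by
  unfold Proper at *
  rw [List.isChain_append, List.isChain_cons]
  refine ⟨hx, ⟨?_, hy⟩, ?_⟩
  · intro c hc
    rintro rfl
    exact h2 hc
  · intro c hc d hd
    simp only [List.head?_cons, Option.mem_def, Option.some.injEq] at hd
    subst hd
    rintro rfl
    exact h1 hc

theorem not_proper_left {x y : List (Fin 3)} (h : ¬ Proper x) : ¬ Proper (x ++ y) := by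
  intro h'
  exact h (List.isChain_append.1 h').1

theorem not_proper_right {x y : List (Fin 3)} (h : ¬ Proper y) : ¬ Proper (x ++ y) := by
  intro h'
  exact h (List.isChain_append.1 h').2.1

/-- The word probabilities of a stationary 2-dependent 3-colouring of the integers. -/
structure WLaw (P : List (Fin 3) → ℝ) : Prop where
  nonneg : ∀ w, 0 ≤ P w
  nil : P [] = 1
  improper : ∀ w, ¬ Proper w → P w = 0
  left : ∀ w, ∑ a, P (a :: w) = P w
  right : ∀ w, ∑ a, P (w ++ [a]) = P w
  mid : ∀ x y, ∑ a, ∑ b, P (x ++ a :: b :: y) = P x * P y

/-- Taylor coefficients of the random insertion flow started from `P`. -/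
noncomputable def C (P : List (Fin 3) → ℝ) : ℕ → List (Fin 3) → ℝ
  | 0, w => P w
  | k + 1, [] => ((2).choose (k + 1) : ℕ)
  | k + 1, a :: w => if Proper (a :: w) then sdel (C P k) (a :: w) / (k + 1) else 0

variable {P : List (Fin 3) → ℝ}

theorem C_nil (hP : WLaw P) (k : ℕ) : C P k [] = ((2).choose k : ℕ) := by
  cases k with
  | zero => simp [C, hP.nil]
  | succ k => rfl

theorem C_improper (hP : WLaw P) (k : ℕ) {w : List (Fin 3)} (hw : ¬ Proper w) : C P k w = 0 := by
  cases k with
  | zero => exact hP.improper w hw
  | succ k =>
    cases w with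
    | nil => exact absurd (by simp [Proper]) hw
    | cons a w => simp only [C]; rw [if_neg hw]

theorem C_succ (k : ℕ) {w : List (Fin 3)} (hw : w ≠ []) (hp : Proper w) :
    (k + 1 : ℝ) * C P (k + 1) w = sdel (C P k) w := by
  cases w with
  | nil => exact absurd rfl hw
  | cons a w =>
    simp only [C]
    rw [if_pos hp]
    have : (k + 1 : ℝ) ≠ 0 := by positivity
    field_simp

theorem C_nonneg (hP : WLaw P) (k : ℕ) (w : List (Fin 3)) : 0 ≤ C P k w := by
  induction k generalizing w with
  | zero => exact hP.nonneg w
  | succ k ih =>
    cases w with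
    | nil => simp only [C]; positivity
    | cons a w =>
      simp only [C]
      split_ifs
      · exact div_nonneg (sdel_nonneg _ ih _) (by positivity)
      · exact le_rfl

/-- The identity for a single inserted letter. -/
theorem C_mid (hP : WLaw P) (k : ℕ) {x y : List (Fin 3)} (hx : Proper x) (hy : Proper y)
    (a : Fin 3) :
    (k + 1 : ℝ) * C P (k + 1) (x ++ a :: y) = sdel (fun m => C P k (m ++ a :: y)) x +
      sdel (fun m => C P k (x ++ a :: m)) y +
      (1 - 2 * (if x.getLast? = some a then 1 else 0) -
        2 * (if y.head? = some a then 1 else 0)) * C P k (x ++ y) := by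
  by_cases h1 : x.getLast? = some a
  · obtain ⟨x', rfl⟩ : ∃ x', x = x' ++ [a] := by
      rw [List.getLast?_eq_some_iff] at h1
      exact h1
    have e0 : C P (k + 1) (x' ++ [a] ++ a :: y) = 0 := by
      apply C_improper hP
      have := not_proper_double x' y a
      simpa using this
    have e1 : sdel (fun m => C P k (m ++ a :: y)) (x' ++ [a]) = C P k (x' ++ [a] ++ y) := by
      rw [sdel_append]
      have : (fun m => C P k (m ++ [a] ++ a :: y)) = fun _ => (0 : ℝ) := by
        funext m
        apply C_improper hP
        have := not_proper_double m y a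
        simpa using this
      rw [this, sdel_zero]
      simp [sdel]
    have e2 : sdel (fun m => C P k (x' ++ [a] ++ a :: m)) y = 0 := by
      have : (fun m => C P k (x' ++ [a] ++ a :: m)) = fun _ => (0 : ℝ) := by
        funext m
        apply C_improper hP
        have := not_proper_double x' m a
        simpa using this
      rw [this, sdel_zero]
    rw [e0, e1, e2, if_pos h1]
    by_cases h2 : y.head? = some a
    · obtain ⟨y', rfl⟩ : ∃ y', y = a :: y' := by
        cases y with
        | nil => simp at h2
        | cons c y' => simp only [List.head?_cons, Option.some.injEq] at h2; exact ⟨y', by rw [h2]⟩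
      have e3 : C P k (x' ++ [a] ++ a :: y') = 0 := by
        apply C_improper hP
        have := not_proper_double x' y' a
        simpa using this
      rw [e3]; ring
    · rw [if_neg h2]; ring
  · by_cases h2 : y.head? = some a
    · obtain ⟨y', rfl⟩ : ∃ y', y = a :: y' := by
        cases y with
        | nil => simp at h2
        | cons c y' => simp only [List.head?_cons, Option.some.injEq] at h2; exact ⟨y', by rw [h2]⟩
      have e0 : C P (k + 1) (x ++ a :: a :: y') = 0 := C_improper hP _ (not_proper_double x y' a)
      have e1 : sdel (fun m => C P k (m ++ a :: a :: y')) x = 0 := by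
        have : (fun m => C P k (m ++ a :: a :: y')) = fun _ => (0 : ℝ) := by
          funext m
          exact C_improper hP _ (not_proper_double m y' a)
        rw [this, sdel_zero]
      have e2 : sdel (fun m => C P k (x ++ a :: m)) (a :: y') = C P k (x ++ a :: y') := by
        simp only [sdel]
        have : (fun m => C P k (x ++ a :: a :: m)) = fun _ => (0 : ℝ) := by
          funext m
          exact C_improper hP _ (not_proper_double x m a)
        rw [this, sdel_zero, add_zero]
      rw [e0, e1, e2, if_neg h1, if_pos h2]
      ring
    · have hp := proper_mid hx hy h1 h2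
      rw [C_succ k (by simp) hp, sdel_append]
      simp only [sdel]
      rw [if_neg h1, if_neg h2]
      ring

theorem sum_ite_option (o : Option (Fin 3)) (F : Fin 3 → ℝ) :
    ∑ a : Fin 3, (if o = some a then (1 : ℝ) else 0) = if o = none then 0 else 1 := by
  cases o with
  | none => simp
  | some c => simp

/-- The identity for two inserted letters. -/
theorem C_mid2 (hP : WLaw P) (k : ℕ) {x y : List (Fin 3)} (hx : Proper x) (hy : Proper y)
    (a b : Fin 3) :
    (k + 1 : ℝ) * C P (k + 1) (x ++ a :: b :: y) = sdel (fun m => C P k (m ++ a :: b :: y)) x +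
      sdel (fun m => C P k (x ++ a :: b :: m)) y + C P k (x ++ b :: y) + C P k (x ++ a :: y)
      - 2 * (if x.getLast? = some a then 1 else 0) * C P k (x ++ b :: y)
      - 2 * (if a = b then 1 else 0) * C P k (x ++ a :: y)
      - 2 * (if y.head? = some b then 1 else 0) * C P k (x ++ a :: y) := by
  by_cases hb : y.head? = some b
  · obtain ⟨y', rfl⟩ : ∃ y', y = b :: y' := by
      cases y with
      | nil => simp at hb
      | cons c y' => simp only [List.head?_cons, Option.some.injEq] at hb; exact ⟨y', by rw [hb]⟩
    have e0 : C P (k + 1) (x ++ a :: b :: b :: y') = 0 := by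
      apply C_improper hP
      have := not_proper_double (x ++ [a]) y' b
      simpa using this
    have e1 : sdel (fun m => C P k (m ++ a :: b :: b :: y')) x = 0 := by
      have : (fun m => C P k (m ++ a :: b :: b :: y')) = fun _ => (0 : ℝ) := by
        funext m
        apply C_improper hP
        have := not_proper_double (m ++ [a]) y' b
        simpa using this
      rw [this, sdel_zero]
    have e2 : sdel (fun m => C P k (x ++ a :: b :: m)) (b :: y') = C P k (x ++ a :: b :: y') := by
      simp only [sdel]
      have : (fun m => C P k (x ++ a :: b :: b :: m)) = fun _ => (0 : ℝ) := by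
        funext m
        apply C_improper hP
        have := not_proper_double (x ++ [a]) m b
        simpa using this
      rw [this, sdel_zero, add_zero]
    have e3 : C P k (x ++ b :: b :: y') = 0 := C_improper hP _ (not_proper_double x y' b)
    have e4 : (if a = b then (1 : ℝ) else 0) * C P k (x ++ a :: b :: y') = 0 := by
      by_cases hab : a = b
      · subst hab
        rw [C_improper hP k (not_proper_double x y' a)]
        simp
      · rw [if_neg hab]; simp
    rw [e0, e1, e2, e3, if_pos hb]
    linear_combination 2 * e4
  · have hby : Proper (b :: y) := by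
      have := proper_mid (x := []) (y := y) (a := b) (by simp [Proper]) hy (by simp) hb
      simpa using this
    have h := C_mid hP k hx hby a
    simp only [sdel, List.head?_cons, Option.some.injEq] at h
    rw [h, if_neg hb]
    by_cases hab : a = b
    · subst hab
      simp only [if_true]
      ring
    · have hab' : ¬ b = a := fun h => hab h.symm
      rw [if_neg hab, if_neg hab']
      ring

theorem sum_last (x : List (Fin 3)) :
    ∑ a : Fin 3, (if x.getLast? = some a then (1 : ℝ) else 0) = if x = [] then 0 else 1 := by
  have := sum_ite_option x.getLast? (fun _ => 0)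
  simpa [List.getLast?_eq_none_iff] using this

theorem sum_head (x : List (Fin 3)) :
    ∑ a : Fin 3, (if x.head? = some a then (1 : ℝ) else 0) = if x = [] then 0 else 1 := by
  have := sum_ite_option x.head? (fun _ => 0)
  simpa [List.head?_eq_none_iff] using this

/-- Previous coefficient. -/
noncomputable def Cp (P : List (Fin 3) → ℝ) : ℕ → List (Fin 3) → ℝ
  | 0, _ => 0
  | k + 1, w => C P k w

theorem sdel_Cp (hP : WLaw P) (k : ℕ) {w : List (Fin 3)} (hw : w ≠ []) (hp : Proper w) :
    sdel (Cp P k) w = k * C P k w := by
  cases k with
  | zero =>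
    have : Cp P 0 = fun _ => (0 : ℝ) := rfl
    rw [this, sdel_zero]; simp
  | succ k =>
    have : Cp P (k + 1) = C P k := rfl
    rw [this, ← C_succ k hw hp]
    push_cast
    ring

theorem choose_id (k : ℕ) : (k + 1 : ℝ) * (((2).choose (k + 1) : ℕ) + ((2).choose k : ℕ)) =
    3 * ((2).choose k : ℕ) := by
  have h := Nat.add_one_mul_choose_eq 2 k
  have h2 := Nat.choose_succ_succ 2 k
  have h3 : ((2 + 1 : ℕ) : ℝ) * ((2).choose k : ℕ) = ((2 + 1).choose (k + 1) : ℕ) * ((k + 1 : ℕ) : ℝ) := by
    exact_mod_cast h
  have h4 : (((2 + 1).choose (k + 1) : ℕ) : ℝ) = ((2).choose k : ℕ) + ((2).choose (k + 1) : ℕ) := by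
    exact_mod_cast h2
  rw [h4] at h3
  push_cast at h3
  linarith

theorem C_left (hP : WLaw P) (k : ℕ) (w : List (Fin 3)) :
    ∑ a, C P k (a :: w) = C P k w + Cp P k w := by
  induction k generalizing w with
  | zero => simp only [C, Cp, add_zero]; exact hP.left w
  | succ k ih =>
    have hk : (k + 1 : ℝ) ≠ 0 := by positivity
    by_cases hw : Proper w
    · apply mul_left_cancel₀ hk
      have e : ∀ a : Fin 3, (k + 1 : ℝ) * C P (k + 1) (a :: w) =
          sdel (fun m => C P k (a :: m)) w + (1 - 2 * (if w.head? = some a then 1 else 0)) * C P k w := by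
        intro a
        have := C_mid hP k (x := []) (y := w) (by simp [Proper]) hw a
        simp only [List.nil_append, sdel, List.getLast?_nil] at this
        rw [this]
        simp
      rw [Finset.mul_sum]
      simp only [e]
      rw [Finset.sum_add_distrib, sdel_sum, ← Finset.sum_mul, Finset.sum_sub_distrib,
        ← Finset.mul_sum, sum_head]
      have e2 : (fun m => ∑ a, C P k (a :: m)) = fun m => C P k m + Cp P k m := by
        funext m; exact ih m
      rw [e2, sdel_add]
      show _ = (k + 1 : ℝ) * (C P (k + 1) w + C P k w)
      by_cases h0 : w = []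
      · subst h0
        simp only [sdel, if_true]
        rw [C_nil hP, C_nil hP]
        have := choose_id k
        simp
        linarith
      · rw [sdel_Cp hP k h0 hw, ← C_succ k h0 hw, if_neg h0]
        simp
        ring
    · rw [C_improper hP _ hw]
      show _ = 0 + C P k w
      rw [C_improper hP _ hw, Finset.sum_eq_zero]
      · simp
      · intro a _
        have := not_proper_right (x := [a]) hw
        exact C_improper hP _ this

theorem C_right (hP : WLaw P) (k : ℕ) (w : List (Fin 3)) :
    ∑ a, C P k (w ++ [a]) = C P k w + Cp P k w := by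
  induction k generalizing w with
  | zero => simp only [C, Cp, add_zero]; exact hP.right w
  | succ k ih =>
    have hk : (k + 1 : ℝ) ≠ 0 := by positivity
    by_cases hw : Proper w
    · apply mul_left_cancel₀ hk
      have e : ∀ a : Fin 3, (k + 1 : ℝ) * C P (k + 1) (w ++ [a]) =
          sdel (fun m => C P k (m ++ [a])) w +
            (1 - 2 * (if w.getLast? = some a then 1 else 0)) * C P k w := by
        intro a
        have := C_mid hP k (x := w) (y := []) hw (by simp [Proper]) a
        simp only [List.append_nil, sdel, List.head?_nil] at this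
        rw [this]
        simp
      rw [Finset.mul_sum]
      simp only [e]
      rw [Finset.sum_add_distrib, sdel_sum, ← Finset.sum_mul, Finset.sum_sub_distrib,
        ← Finset.mul_sum, sum_last]
      have e2 : (fun m => ∑ a, C P k (m ++ [a])) = fun m => C P k m + Cp P k m := by
        funext m; exact ih m
      rw [e2, sdel_add]
      show _ = (k + 1 : ℝ) * (C P (k + 1) w + C P k w)
      by_cases h0 : w = []
      · subst h0
        simp only [sdel, if_true]
        rw [C_nil hP, C_nil hP]
        have := choose_id k
        simp
        linarith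
      · rw [sdel_Cp hP k h0 hw, ← C_succ k h0 hw, if_neg h0]
        simp
        ring
    · rw [C_improper hP _ hw]
      show _ = 0 + C P k w
      rw [C_improper hP _ hw, Finset.sum_eq_zero]
      · simp
      · intro a _
        have := not_proper_left (y := [a]) hw
        exact C_improper hP _ this

end Pool.Agent.H588R3.TC
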