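import Mathlib
import Pool.Agent.H588R3.TC.Word

set_option autoImplicit false

/-!
# The product rule along the insertion flow
-/

namespace Pool.Agent.H588R3.TC

open PowerSeries

variable {P : List (Fin 3) → ℝ}

/-- Cauchy product of coefficients. -/
noncomputable def conv (P : List (Fin 3) → ℝ) (k : ℕ) (x y : List (Fin 3)) : ℝ :=
  ∑ p ∈ Finset.HasAntidiagonal.antidiagonal k, C P p.1 x * C P p.2 y

theorem conv_succ (k : ℕ) (x y : List (Fin 3)) :
    (k + 1 : ℝ) * conv P (k + 1) x y =
      ∑ p ∈ Finset.HasAntidiagonal.antidiagonal k, ((p.1 + 1 : ℝ) * C P (p.1 + 1) x) * C P p.2 y +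
      ∑ p ∈ Finset.HasAntidiagonal.antidiagonal k, C P p.1 x * ((p.2 + 1 : ℝ) * C P (p.2 + 1) y) := by
  let A : List (Fin 3) → PowerSeries ℝ := fun w => PowerSeries.mk (fun k => C P k w)
  have h : PowerSeries.derivative ℝ (A x * A y) =
      A x • PowerSeries.derivative ℝ (A y) + A y • PowerSeries.derivative ℝ (A x) :=
    Derivation.leibniz _ _ _
  have h2 := congrArg (PowerSeries.coeff k) h
  rw [PowerSeries.coeff_derivative, PowerSeries.coeff_mul, map_add, smul_eq_mul, smul_eq_mul,
    PowerSeries.coeff_mul, mul_comm (A y), PowerSeries.coeff_mul] at h2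
  simp only [PowerSeries.coeff_derivative, A, PowerSeries.coeff_mk] at h2
  unfold conv
  rw [mul_comm, h2, add_comm]
  congr 1
  · apply Finset.sum_congr rfl
    intro p _
    ring
  · apply Finset.sum_congr rfl
    intro p _
    ring

theorem sdel_conv_left (k : ℕ) {x : List (Fin 3)} (y : List (Fin 3)) (hx0 : x ≠ [])
    (hx : Proper x) :
    ∑ p ∈ Finset.HasAntidiagonal.antidiagonal k, ((p.1 + 1 : ℝ) * C P (p.1 + 1) x) * C P p.2 y =
      sdel (fun m => conv P k m y) x := by
  unfold conv
  rw [← sdel_sum]
  apply Finset.sum_congr rfl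
  intro p _
  have e : (fun m => C P p.1 m * C P p.2 y) = fun m => C P p.2 y * C P p.1 m := by
    funext m; ring
  rw [e, sdel_mul, C_succ p.1 hx0 hx]
  ring

theorem sdel_conv_right (k : ℕ) (x : List (Fin 3)) {y : List (Fin 3)} (hy0 : y ≠ [])
    (hy : Proper y) :
    ∑ p ∈ Finset.HasAntidiagonal.antidiagonal k, C P p.1 x * ((p.2 + 1 : ℝ) * C P (p.2 + 1) y) =
      sdel (fun m => conv P k x m) y := by
  unfold conv
  rw [← sdel_sum]
  apply Finset.sum_congr rfl
  intro p _
  rw [sdel_mul, C_succ p.2 hy0 hy]

theorem C_nil_succ (hP : WLaw P) (i : ℕ) : (i + 1 : ℝ) * C P (i + 1) [] =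
    2 * ((1).choose i : ℕ) := by
  rw [C_nil hP]
  have h := Nat.add_one_mul_choose_eq 1 i
  have h3 : ((1 + 1 : ℕ) : ℝ) * ((1).choose i : ℕ) = ((1 + 1).choose (i + 1) : ℕ) * ((i + 1 : ℕ) : ℝ) := by
    exact_mod_cast h
  push_cast at h3
  norm_num at h3 ⊢
  linarith

theorem antidiag_one (k : ℕ) (f : ℕ → ℝ) (g : ℕ → ℝ) (hg : ∀ j, g (j + 1) = f j) (hg0 : g 0 = 0) :
    ∑ p ∈ Finset.HasAntidiagonal.antidiagonal k, (((1).choose p.1 : ℕ) : ℝ) * f p.2 = f k + g k := by
  cases k with
  | zero => simp [hg0]
  | succ k =>
    rw [Finset.Nat.sum_antidiagonal_succ]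
    simp only [Nat.choose_zero_right, Nat.cast_one, one_mul, hg]
    congr 1
    cases k with
    | zero => simp
    | succ k =>
      rw [Finset.Nat.sum_antidiagonal_succ]
      simp [Nat.choose_eq_zero_of_lt]

theorem conv_nil_left (hP : WLaw P) (k : ℕ) (y : List (Fin 3)) :
    ∑ p ∈ Finset.HasAntidiagonal.antidiagonal k, ((p.1 + 1 : ℝ) * C P (p.1 + 1) []) * C P p.2 y =
      2 * (C P k y + Cp P k y) := by
  have h := antidiag_one k (fun j => C P j y) (fun j => Cp P j y) (fun j => rfl) rfl
  rw [← h, Finset.mul_sum]
  apply Finset.sum_congr rfl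
  intro p _
  rw [C_nil_succ hP]
  ring

theorem conv_nil_right (hP : WLaw P) (k : ℕ) (x : List (Fin 3)) :
    ∑ p ∈ Finset.HasAntidiagonal.antidiagonal k, C P p.1 x * ((p.2 + 1 : ℝ) * C P (p.2 + 1) []) =
      2 * (C P k x + Cp P k x) := by
  rw [← conv_nil_left hP k x, ← Finset.Nat.sum_antidiagonal_swap]
  apply Finset.sum_congr rfl
  intro p _
  simp only [Prod.fst_swap, Prod.snd_swap]
  ring

theorem C_prod (hP : WLaw P) (k : ℕ) : ∀ x y : List (Fin 3),
    ∑ a, ∑ b, C P k (x ++ a :: b :: y) = conv P k x y := by
  induction k with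
  | zero =>
    intro x y
    have := hP.mid x y
    simpa [conv, C] using this
  | succ k ih =>
    intro x y
    by_cases hx : Proper x
    · by_cases hy : Proper y
      · have hk : (k + 1 : ℝ) ≠ 0 := by positivity
        apply mul_left_cancel₀ hk
        rw [conv_succ, Finset.mul_sum]
        simp only [Finset.mul_sum]
        simp only [C_mid2 hP k hx hy]
        simp only [Finset.sum_add_distrib, Finset.sum_sub_distrib]
        set E : ℝ := ∑ c, C P k (x ++ c :: y) with hE
        have s1 : ∑ a : Fin 3, ∑ b : Fin 3, sdel (fun m => C P k (m ++ a :: b :: y)) x =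
            sdel (fun m => conv P k m y) x := by
          have : (fun m => conv P k m y) = fun m => ∑ a, ∑ b, C P k (m ++ a :: b :: y) := by
            funext m; exact (ih m y).symm
          rw [this]
          simp only [sdel_sum]
        have s2 : ∑ a : Fin 3, ∑ b : Fin 3, sdel (fun m => C P k (x ++ a :: b :: m)) y =
            sdel (fun m => conv P k x m) y := by
          have : (fun m => conv P k x m) = fun m => ∑ a, ∑ b, C P k (x ++ a :: b :: m) := by
            funext m; exact (ih x m).symm
          rw [this]
          simp only [sdel_sum]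
        have s3 : ∑ a : Fin 3, ∑ b : Fin 3, C P k (x ++ b :: y) = 3 * E := by
          rw [Finset.sum_const, hE]; simp
        have s4 : ∑ a : Fin 3, ∑ b : Fin 3, C P k (x ++ a :: y) = 3 * E := by
          simp only [Finset.sum_const]
          rw [← Finset.smul_sum, hE]; simp
        have s5 : ∑ a : Fin 3, ∑ b : Fin 3, 2 * (if x.getLast? = some a then (1 : ℝ) else 0) *
            C P k (x ++ b :: y) = 2 * (if x = [] then 0 else 1) * E := by
          rw [← sum_last x, hE]
          simp only [← Finset.mul_sum]
          rw [← Finset.sum_mul, ← Finset.mul_sum]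
        have s6 : ∑ a : Fin 3, ∑ b : Fin 3, 2 * (if a = b then (1 : ℝ) else 0) *
            C P k (x ++ a :: y) = 2 * E := by
          rw [hE, Finset.mul_sum]
          apply Finset.sum_congr rfl
          intro a _
          rw [← Finset.sum_mul, ← Finset.mul_sum]
          simp
        have s7 : ∑ a : Fin 3, ∑ b : Fin 3, 2 * (if y.head? = some b then (1 : ℝ) else 0) *
            C P k (x ++ a :: y) = 2 * (if y = [] then 0 else 1) * E := by
          rw [← sum_head y, hE, Finset.mul_sum]
          apply Finset.sum_congr rfl
          intro a _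
          rw [← Finset.sum_mul, ← Finset.mul_sum]
        rw [s1, s2, s3, s4, s5, s6, s7]
        by_cases hx0 : x = []
        · subst hx0
          by_cases hy0 : y = []
          · subst hy0
            have hE' : E = C P k [] + Cp P k [] := by
              rw [hE, ← C_left hP k []]; rfl
            rw [conv_nil_left hP, conv_nil_right hP, hE']
            simp [sdel]
            ring
          · have hE' : E = C P k y + Cp P k y := by
              rw [hE, ← C_left hP k y]; rfl
            rw [conv_nil_left hP, sdel_conv_right k [] hy0 hy, hE']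
            simp [sdel, hy0]
            ring
        · by_cases hy0 : y = []
          · subst hy0
            have hE' : E = C P k x + Cp P k x := by
              rw [hE, ← C_right hP k x]
            rw [conv_nil_right hP, sdel_conv_left k [] hx0 hx, hE']
            simp [sdel, hx0]
            ring
          · rw [sdel_conv_left k y hx0 hx, sdel_conv_right k x hy0 hy]
            simp [hx0, hy0]
            ring
      · have e1 : conv P (k + 1) x y = 0 := by
          unfold conv
          apply Finset.sum_eq_zero
          intro p _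
          rw [C_improper hP p.2 hy, mul_zero]
        rw [e1]
        apply Finset.sum_eq_zero
        intro a _
        apply Finset.sum_eq_zero
        intro b _
        have := not_proper_right (x := x ++ [a, b]) hy
        apply C_improper hP
        simpa using this
    · have e1 : conv P (k + 1) x y = 0 := by
        unfold conv
        apply Finset.sum_eq_zero
        intro p _
        rw [C_improper hP p.1 hx, zero_mul]
      rw [e1]
      apply Finset.sum_eq_zero
      intro a _
      apply Finset.sum_eq_zero
      intro b _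
      have := not_proper_left (y := a :: b :: y) hx
      exact C_improper hP _ this

theorem C_big (hP : WLaw P) : ∀ (k : ℕ) (w : List (Fin 3)), w.length + 2 < k → C P k w = 0 := by
  intro k
  induction k with
  | zero => intro w h; omega
  | succ k ih =>
    intro w h
    cases w with
    | nil =>
      rw [C_nil hP]
      simp only [List.length_nil] at h
      rw [Nat.choose_eq_zero_of_lt h]; simp
    | cons a w =>
      simp only [C]
      split_ifs
      · have : sdel (C P k) (a :: w) = sdel (fun _ => (0 : ℝ)) (a :: w) := by
          apply sdel_congr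
          intro m hm
          apply ih
          omega
        rw [this, sdel_zero]; simp
      · rfl

/-- The generating polynomial of a word. -/
noncomputable def pol (P : List (Fin 3) → ℝ) (w : List (Fin 3)) : Polynomial ℝ :=
  ∑ k ∈ Finset.range (w.length + 3), Polynomial.monomial k (C P k w)

theorem coeff_pol (hP : WLaw P) (w : List (Fin 3)) (k : ℕ) : (pol P w).coeff k = C P k w := by
  unfold pol
  rw [Polynomial.finsetSum_coeff]
  simp only [Polynomial.coeff_monomial]
  rw [Finset.sum_ite_eq']
  split_ifs with h
  · rfl
  · rw [C_big hP]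
    simp only [Finset.mem_range, not_lt] at h
    omega

theorem pol_prod (hP : WLaw P) (x y : List (Fin 3)) :
    ∑ a, ∑ b, pol P (x ++ a :: b :: y) = pol P x * pol P y := by
  ext k
  rw [Polynomial.coeff_mul, Polynomial.finsetSum_coeff]
  simp only [Polynomial.finsetSum_coeff, coeff_pol hP]
  rw [C_prod hP k x y]
  rfl

theorem pol_left (hP : WLaw P) (w : List (Fin 3)) :
    ∑ a, pol P (a :: w) = (1 + Polynomial.X) * pol P w := by
  ext k
  rw [add_mul, one_mul, Polynomial.coeff_add, Polynomial.finsetSum_coeff]
  simp only [coeff_pol hP]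
  rw [C_left hP k w]
  congr 1
  cases k with
  | zero => simp [Cp]
  | succ k => rw [mul_comm, Polynomial.coeff_mul_X, coeff_pol hP]; rfl

theorem pol_right (hP : WLaw P) (w : List (Fin 3)) :
    ∑ a, pol P (w ++ [a]) = (1 + Polynomial.X) * pol P w := by
  ext k
  rw [add_mul, one_mul, Polynomial.coeff_add, Polynomial.finsetSum_coeff]
  simp only [coeff_pol hP]
  rw [C_right hP k w]
  congr 1
  cases k with
  | zero => simp [Cp]
  | succ k => rw [mul_comm, Polynomial.coeff_mul_X, coeff_pol hP]; rfl

theorem pol_nil (hP : WLaw P) : pol P [] = (1 + Polynomial.X) ^ 2 := by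
  ext k
  rw [coeff_pol hP, C_nil hP, Polynomial.coeff_one_add_X_pow]

/-- The insertion flow at time `t`. -/
noncomputable def flow (P : List (Fin 3) → ℝ) (t : ℝ) (w : List (Fin 3)) : ℝ :=
  (pol P w).eval t / (1 + t) ^ (w.length + 2)

theorem flow_law (hP : WLaw P) {t : ℝ} (ht : 0 ≤ t) : WLaw (flow P t) := by
  have h1 : (1 + t) ≠ 0 := by positivity
  refine ⟨?_, ?_, ?_, ?_, ?_, ?_⟩
  · intro w
    unfold flow
    apply div_nonneg _ (by positivity)
    unfold pol
    rw [Polynomial.eval_finsetSum]
    apply Finset.sum_nonneg
    intro k _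
    rw [Polynomial.eval_monomial]
    exact mul_nonneg (C_nonneg hP k w) (by positivity)
  · unfold flow
    rw [pol_nil hP]
    simp only [Polynomial.eval_pow, Polynomial.eval_add, Polynomial.eval_one, Polynomial.eval_X,
      List.length_nil, zero_add]
    exact div_self (pow_ne_zero _ h1)
  · intro w hw
    unfold flow pol
    rw [Polynomial.eval_finsetSum, Finset.sum_eq_zero, zero_div]
    intro k _
    rw [C_improper hP k hw]
    simp
  · intro w
    have h := congrArg (Polynomial.eval t) (pol_left hP w)
    rw [Polynomial.eval_finsetSum, Polynomial.eval_mul] at h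
    simp only [Polynomial.eval_add, Polynomial.eval_one, Polynomial.eval_X] at h
    unfold flow
    simp only [List.length_cons]
    rw [← Finset.sum_div, h, div_eq_div_iff (pow_ne_zero _ h1) (pow_ne_zero _ h1)]
    ring
  · intro w
    have h := congrArg (Polynomial.eval t) (pol_right hP w)
    rw [Polynomial.eval_finsetSum, Polynomial.eval_mul] at h
    simp only [Polynomial.eval_add, Polynomial.eval_one, Polynomial.eval_X] at h
    unfold flow
    simp only [List.length_append, List.length_cons, List.length_nil, zero_add]
    rw [← Finset.sum_div, h, div_eq_div_iff (pow_ne_zero _ h1) (pow_ne_zero _ h1)]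
    ring
  · intro x y
    have h := congrArg (Polynomial.eval t) (pol_prod hP x y)
    rw [Polynomial.eval_finsetSum, Polynomial.eval_mul] at h
    simp only [Polynomial.eval_finsetSum] at h
    unfold flow
    have e : ∀ a b : Fin 3, (x ++ a :: b :: y).length + 2 = (x.length + 2) + (y.length + 2) := by
      intro a b; simp; omega
    simp only [e]
    simp only [← Finset.sum_div]
    rw [h, pow_add]
    field_simp

theorem flow_zero (hP : WLaw P) (w : List (Fin 3)) : flow P 0 w = P w := by
  unfold flow
  rw [← Polynomial.coeff_zero_eq_eval_zero, coeff_pol hP]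
  simp [C]

end Pool.Agent.H588R3.TC
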