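import Mathlib
import Pool.Agent.H588R3.TC.Path

set_option autoImplicit false

/-!
# The Holroyd-Liggett weights form the word law of a 2-dependent 3-colouring
-/

namespace Pool.Agent.H588R3.TC

theorem hl_rec' {w : List (Fin 3)} (hw : w ≠ []) (hp : Proper w) {n : ℕ} (hn : w.length = n) :
    ((n : ℝ) + 2) * hl w = sdel hl w := by
  rw [← hn]; exact hl_rec hw hp

theorem hl_nonneg : ∀ (n : ℕ) (w : List (Fin 3)), 0 ≤ hlAux n w := by
  intro n
  induction n with
  | zero => intro w; simp [hlAux]
  | succ n ih =>
    intro w
    simp only [hlAux]
    split_ifs
    · exact div_nonneg (sdel_nonneg _ ih _) (by positivity)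
    · exact le_rfl

theorem hl_mid1 {x y : List (Fin 3)} (hx : Proper x) (hy : Proper y) (a : Fin 3) :
    ((x.length : ℝ) + y.length + 3) * hl (x ++ a :: y) = sdel (fun m => hl (m ++ a :: y)) x +
      sdel (fun m => hl (x ++ a :: m)) y +
      (1 - 2 * (if x.getLast? = some a then 1 else 0) -
        2 * (if y.head? = some a then 1 else 0)) * hl (x ++ y) := by
  by_cases h1 : x.getLast? = some a
  · obtain ⟨x', rfl⟩ : ∃ x', x = x' ++ [a] := by
      rw [List.getLast?_eq_some_iff] at h1
      exact h1
    have e0 : hl (x' ++ [a] ++ a :: y) = 0 := by
      apply hl_improper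
      have := not_proper_double x' y a
      simpa using this
    have e1 : sdel (fun m => hl (m ++ a :: y)) (x' ++ [a]) = hl (x' ++ [a] ++ y) := by
      rw [sdel_append]
      have : (fun m => hl (m ++ [a] ++ a :: y)) = fun _ => (0 : ℝ) := by
        funext m
        apply hl_improper
        have := not_proper_double m y a
        simpa using this
      rw [this, sdel_zero]
      simp [sdel]
    have e2 : sdel (fun m => hl (x' ++ [a] ++ a :: m)) y = 0 := by
      have : (fun m => hl (x' ++ [a] ++ a :: m)) = fun _ => (0 : ℝ) := by
        funext m
        apply hl_improper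
        have := not_proper_double x' m a
        simpa using this
      rw [this, sdel_zero]
    rw [e0, e1, e2, if_pos h1]
    by_cases h2 : y.head? = some a
    · obtain ⟨y', rfl⟩ : ∃ y', y = a :: y' := by
        cases y with
        | nil => simp at h2
        | cons c y' => simp only [List.head?_cons, Option.some.injEq] at h2; exact ⟨y', by rw [h2]⟩
      have e3 : hl (x' ++ [a] ++ a :: y') = 0 := by
        apply hl_improper
        have := not_proper_double x' y' a
        simpa using this
      rw [e3]; ring
    · rw [if_neg h2]; ring
  · by_cases h2 : y.head? = some a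
    · obtain ⟨y', rfl⟩ : ∃ y', y = a :: y' := by
        cases y with
        | nil => simp at h2
        | cons c y' => simp only [List.head?_cons, Option.some.injEq] at h2; exact ⟨y', by rw [h2]⟩
      have e0 : hl (x ++ a :: a :: y') = 0 := hl_improper (not_proper_double x y' a)
      have e1 : sdel (fun m => hl (m ++ a :: a :: y')) x = 0 := by
        have : (fun m => hl (m ++ a :: a :: y')) = fun _ => (0 : ℝ) := by
          funext m
          exact hl_improper (not_proper_double m y' a)
        rw [this, sdel_zero]
      have e2 : sdel (fun m => hl (x ++ a :: m)) (a :: y') = hl (x ++ a :: y') := by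
        simp only [sdel]
        have : (fun m => hl (x ++ a :: a :: m)) = fun _ => (0 : ℝ) := by
          funext m
          exact hl_improper (not_proper_double x m a)
        rw [this, sdel_zero, add_zero]
      rw [e0, e1, e2, if_neg h1, if_pos h2]
      ring
    · have hp := proper_mid hx hy h1 h2
      have h3 := hl_rec (w := x ++ a :: y) (by simp) hp
      rw [sdel_append] at h3
      simp only [sdel, List.length_append, List.length_cons] at h3
      push_cast at h3
      rw [if_neg h1, if_neg h2]
      linarith

theorem hl_mid2 {x y : List (Fin 3)} (hx : Proper x) (hy : Proper y) (a b : Fin 3) :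
    ((x.length : ℝ) + y.length + 4) * hl (x ++ a :: b :: y) =
      sdel (fun m => hl (m ++ a :: b :: y)) x +
      sdel (fun m => hl (x ++ a :: b :: m)) y + hl (x ++ b :: y) + hl (x ++ a :: y)
      - 2 * (if x.getLast? = some a then 1 else 0) * hl (x ++ b :: y)
      - 2 * (if a = b then 1 else 0) * hl (x ++ a :: y)
      - 2 * (if y.head? = some b then 1 else 0) * hl (x ++ a :: y) := by
  by_cases hb : y.head? = some b
  · obtain ⟨y', rfl⟩ : ∃ y', y = b :: y' := by
      cases y with
      | nil => simp at hb
      | cons c y' => simp only [List.head?_cons, Option.some.injEq] at hb; exact ⟨y', by rw [hb]⟩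
    have e0 : hl (x ++ a :: b :: b :: y') = 0 := by
      apply hl_improper
      have := not_proper_double (x ++ [a]) y' b
      simpa using this
    have e1 : sdel (fun m => hl (m ++ a :: b :: b :: y')) x = 0 := by
      have : (fun m => hl (m ++ a :: b :: b :: y')) = fun _ => (0 : ℝ) := by
        funext m
        apply hl_improper
        have := not_proper_double (m ++ [a]) y' b
        simpa using this
      rw [this, sdel_zero]
    have e2 : sdel (fun m => hl (x ++ a :: b :: m)) (b :: y') = hl (x ++ a :: b :: y') := by
      simp only [sdel]
      have : (fun m => hl (x ++ a :: b :: b :: m)) = fun _ => (0 : ℝ) := by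
        funext m
        apply hl_improper
        have := not_proper_double (x ++ [a]) m b
        simpa using this
      rw [this, sdel_zero, add_zero]
    have e3 : hl (x ++ b :: b :: y') = 0 := hl_improper (not_proper_double x y' b)
    have e4 : (if a = b then (1 : ℝ) else 0) * hl (x ++ a :: b :: y') = 0 := by
      by_cases hab : a = b
      · subst hab
        rw [hl_improper (not_proper_double x y' a)]
        simp
      · rw [if_neg hab]; simp
    rw [e0, e1, e2, e3, if_pos hb]
    linear_combination 2 * e4
  · have hby : Proper (b :: y) := by
      have := proper_mid (x := []) (y := y) (a := b) (by simp [Proper]) hy (by simp) hb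
      simpa using this
    have h := hl_mid1 hx hby a
    simp only [sdel, List.head?_cons, Option.some.injEq, List.length_cons] at h
    push_cast at h
    have e : ((x.length : ℝ) + y.length + 4) * hl (x ++ a :: b :: y) =
        ((x.length : ℝ) + (y.length + 1) + 3) * hl (x ++ a :: b :: y) := by ring
    rw [e, h, if_neg hb]
    by_cases hab : a = b
    · subst hab
      simp only [if_true]
      ring
    · have hab' : ¬ b = a := fun h => hab h.symm
      rw [if_neg hab, if_neg hab']
      ring

theorem hl_left (n : ℕ) : ∀ w : List (Fin 3), w.length = n → ∑ a, hl (a :: w) = hl w := by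
  induction n with
  | zero =>
    intro w hw
    have : w = [] := List.length_eq_zero_iff.1 hw
    subst this
    have e : ∀ a : Fin 3, hl [a] = 1 / 3 := by
      intro a
      have h := hl_rec (w := [a]) (by simp) (by simp [Proper])
      simp only [sdel, List.length_cons, List.length_nil, hl_nil] at h
      norm_num at h
      linarith
    simp only [e, hl_nil]
    simp
  | succ n ih =>
    intro w hw
    have hw0 : w ≠ [] := by rintro rfl; simp at hw
    by_cases hp : Proper w
    · have hk : ((n : ℝ) + 4) ≠ 0 := by positivity
      apply mul_left_cancel₀ hk
      have e : ∀ a : Fin 3, ((n : ℝ) + 4) * hl (a :: w) =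
          sdel (fun m => hl (a :: m)) w + (1 - 2 * (if w.head? = some a then 1 else 0)) * hl w := by
        intro a
        have := hl_mid1 (x := []) (y := w) (by simp [Proper]) hp a
        simp only [List.nil_append, sdel, List.getLast?_nil, hw, List.length_nil] at this
        push_cast at this
        have e' : ((n : ℝ) + 4) = 0 + (n + 1) + 3 := by ring
        rw [e', this]
        simp
      rw [Finset.mul_sum]
      simp only [e]
      rw [Finset.sum_add_distrib, sdel_sum, ← Finset.sum_mul, Finset.sum_sub_distrib,
        ← Finset.mul_sum, sum_head]
      have e2 : sdel (fun m => ∑ a, hl (a :: m)) w = sdel hl w := by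
        apply sdel_congr
        intro m hm
        exact ih m (by omega)
      rw [e2, ← hl_rec hw0 hp, hw, if_neg hw0]
      simp
      ring
    · rw [hl_improper hp]
      apply Finset.sum_eq_zero
      intro a _
      have := not_proper_right (x := [a]) hp
      exact hl_improper this

theorem hl_right (n : ℕ) : ∀ w : List (Fin 3), w.length = n → ∑ a, hl (w ++ [a]) = hl w := by
  induction n with
  | zero =>
    intro w hw
    have : w = [] := List.length_eq_zero_iff.1 hw
    subst this
    exact hl_left 0 [] rfl
  | succ n ih =>
    intro w hw
    have hw0 : w ≠ [] := by rintro rfl; simp at hw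
    by_cases hp : Proper w
    · have hk : ((n : ℝ) + 4) ≠ 0 := by positivity
      apply mul_left_cancel₀ hk
      have e : ∀ a : Fin 3, ((n : ℝ) + 4) * hl (w ++ [a]) =
          sdel (fun m => hl (m ++ [a])) w +
            (1 - 2 * (if w.getLast? = some a then 1 else 0)) * hl w := by
        intro a
        have := hl_mid1 (x := w) (y := []) hp (by simp [Proper]) a
        simp only [List.append_nil, sdel, List.head?_nil, hw, List.length_nil] at this
        push_cast at this
        have e' : ((n : ℝ) + 4) = (n + 1) + 0 + 3 := by ring
        rw [e', this]
        simp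
      rw [Finset.mul_sum]
      simp only [e]
      rw [Finset.sum_add_distrib, sdel_sum, ← Finset.sum_mul, Finset.sum_sub_distrib,
        ← Finset.mul_sum, sum_last]
      have e2 : sdel (fun m => ∑ a, hl (m ++ [a])) w = sdel hl w := by
        apply sdel_congr
        intro m hm
        exact ih m (by omega)
      rw [e2, ← hl_rec hw0 hp, hw, if_neg hw0]
      simp
      ring
    · rw [hl_improper hp]
      apply Finset.sum_eq_zero
      intro a _
      have := not_proper_left (y := [a]) hp
      exact hl_improper this

theorem hl_prod (n : ℕ) : ∀ x y : List (Fin 3), x.length + y.length = n →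
    ∑ a, ∑ b, hl (x ++ a :: b :: y) = hl x * hl y := by
  induction n with
  | zero =>
    intro x y hn
    have hx : x = [] := List.length_eq_zero_iff.1 (by omega)
    have hy : y = [] := List.length_eq_zero_iff.1 (by omega)
    subst hx; subst hy
    simp only [List.nil_append, hl_nil, mul_one]
    have h1 : ∀ a : Fin 3, ∑ b, hl (a :: [b]) = hl [a] := fun a => hl_right 1 [a] rfl
    simp only [h1]
    exact hl_left 0 [] rfl
  | succ n ih =>
    intro x y hn
    by_cases hx : Proper x
    · by_cases hy : Proper y
      · have hk : ((x.length : ℝ) + y.length + 4) ≠ 0 := by positivity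
        apply mul_left_cancel₀ hk
        rw [Finset.mul_sum]
        simp only [Finset.mul_sum]
        simp only [hl_mid2 hx hy]
        simp only [Finset.sum_add_distrib, Finset.sum_sub_distrib]
        set E : ℝ := ∑ c, hl (x ++ c :: y) with hE
        have s1 : ∑ a : Fin 3, ∑ b : Fin 3, sdel (fun m => hl (m ++ a :: b :: y)) x =
            sdel (fun m => hl y * hl m) x := by
          simp only [sdel_sum]
          apply sdel_congr
          intro m hm
          rw [ih m y (by omega), mul_comm]
        have s2 : ∑ a : Fin 3, ∑ b : Fin 3, sdel (fun m => hl (x ++ a :: b :: m)) y =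
            sdel (fun m => hl x * hl m) y := by
          simp only [sdel_sum]
          apply sdel_congr
          intro m hm
          rw [ih x m (by omega)]
        have s3 : ∑ a : Fin 3, ∑ b : Fin 3, hl (x ++ b :: y) = 3 * E := by
          rw [Finset.sum_const, hE]; simp
        have s4 : ∑ a : Fin 3, ∑ b : Fin 3, hl (x ++ a :: y) = 3 * E := by
          simp only [Finset.sum_const]
          rw [← Finset.smul_sum, hE]; simp
        have s5 : ∑ a : Fin 3, ∑ b : Fin 3, 2 * (if x.getLast? = some a then (1 : ℝ) else 0) *
            hl (x ++ b :: y) = 2 * (if x = [] then 0 else 1) * E := by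
          rw [← sum_last x, hE]
          simp only [← Finset.mul_sum]
          rw [← Finset.sum_mul, ← Finset.mul_sum]
        have s6 : ∑ a : Fin 3, ∑ b : Fin 3, 2 * (if a = b then (1 : ℝ) else 0) *
            hl (x ++ a :: y) = 2 * E := by
          rw [hE, Finset.mul_sum]
          apply Finset.sum_congr rfl
          intro a _
          rw [← Finset.sum_mul, ← Finset.mul_sum]
          simp
        have s7 : ∑ a : Fin 3, ∑ b : Fin 3, 2 * (if y.head? = some b then (1 : ℝ) else 0) *
            hl (x ++ a :: y) = 2 * (if y = [] then 0 else 1) * E := by
          rw [← sum_head y, hE, Finset.mul_sum]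
          apply Finset.sum_congr rfl
          intro a _
          rw [← Finset.sum_mul, ← Finset.mul_sum]
        rw [s1, s2, s3, s4, s5, s6, s7, sdel_mul, sdel_mul]
        by_cases hx0 : x = []
        · subst hx0
          by_cases hy0 : y = []
          · subst hy0
            simp at hn
          · have hE' : E = hl y := by
              rw [hE]; exact hl_left _ y rfl
            have hr := hl_rec hy0 hy
            rw [hE', ← hr]
            simp [sdel, hy0, hl_nil]
            ring
        · by_cases hy0 : y = []
          · subst hy0
            have hE' : E = hl x := by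
              rw [hE]; exact hl_right _ x rfl
            have hr := hl_rec hx0 hx
            rw [hE', ← hr]
            simp [sdel, hx0, hl_nil]
            ring
          · have hr1 := hl_rec hx0 hx
            have hr2 := hl_rec hy0 hy
            rw [← hr1, ← hr2]
            simp [hx0, hy0]
            ring
      · rw [hl_improper hy, mul_zero]
        apply Finset.sum_eq_zero
        intro a _
        apply Finset.sum_eq_zero
        intro b _
        have := not_proper_right (x := x ++ [a, b]) hy
        apply hl_improper
        simpa using this
    · rw [hl_improper hx, zero_mul]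
      apply Finset.sum_eq_zero
      intro a _
      apply Finset.sum_eq_zero
      intro b _
      have := not_proper_left (y := a :: b :: y) hx
      exact hl_improper this

/-- The Holroyd-Liggett weights are the word probabilities of a stationary 2-dependent
3-colouring. -/
theorem hl_wlaw : WLaw hl :=
  ⟨fun w => hl_nonneg _ w, hl_nil, fun _ hw => hl_improper hw, fun w => hl_left _ w rfl,
    fun w => hl_right _ w rfl, fun x y => hl_prod _ x y rfl⟩

/-- Deletion sums in terms of `List.eraseIdx`. -/
theorem sdel_eq_sum (f : List (Fin 3) → ℝ) (w : List (Fin 3)) :
    sdel f w = ∑ i ∈ Finset.range w.length, f (w.eraseIdx i) := by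
  induction w generalizing f with
  | nil => simp [sdel]
  | cons a w ih =>
    simp only [sdel, List.length_cons]
    rw [Finset.sum_range_succ', ih]
    simp only [List.eraseIdx_cons_succ, List.eraseIdx_zero, List.tail_cons]
    ring

end Pool.Agent.H588R3.TC
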