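import Mathlib
import Pool.Agent.H588R3.TC.Path

set_option autoImplicit false

open MeasureTheory ProbabilityTheory Filter Topology
open scoped ENNReal

/-!
# Laws on `(Fin 3)^ℤ` from word laws (after `Pool.Agent.H443R3.Kappa`)
-/

namespace Pool.Agent.H588R3.TC

theorem measurable_of_dependsOn' {β : Type*} [MeasurableSpace β] {f : (ℤ → Fin 3) → β}
    {F : Finset ℤ} (h : DependsOn f F) : Measurable f := by
  have : f = (fun z : F → Fin 3 => f (fun i => if h : i ∈ F then z ⟨i, h⟩ else 0)) ∘
      (fun x : ℤ → Fin 3 => fun i : F => x i) := by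
    funext x
    apply h
    intro i hi
    have hi' : i ∈ F := hi
    simp [hi']
  rw [this]
  have : DiscreteMeasurableSpace (F → Fin 3) := MeasurableSingletonClass.toDiscreteMeasurableSpace
  exact (Measurable.of_discrete).comp (by fun_prop)

theorem measurableSet_of_dependsOn' {E : Set (ℤ → Fin 3)} {F : Finset ℤ}
    (h : DependsOn (fun x => x ∈ E) F) : MeasurableSet E :=
  measurableSet_setOfPred.2 (measurable_of_dependsOn' (F := F) h)

/-- Iterated sum over all words of length `L`. -/
def sumW {M : Type*} [AddCommMonoid M] : ℕ → (List (Fin 3) → M) → M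
  | 0, f => f []
  | L + 1, f => sumW L (fun w => ∑ a : Fin 3, f (w ++ [a]))

section
variable {M : Type*} [AddCommMonoid M]

theorem sumW_congr (L : ℕ) {f g : List (Fin 3) → M} (h : ∀ w, w.length = L → f w = g w) :
    sumW L f = sumW L g := by
  induction L generalizing f g with
  | zero => exact h [] rfl
  | succ L ih =>
    simp only [sumW]
    apply ih
    intro w hw
    apply Finset.sum_congr rfl
    intro a _
    apply h
    simp [hw]

theorem sumW_left (L : ℕ) (f : List (Fin 3) → M) :
    sumW (L + 1) f = sumW L (fun w => ∑ a : Fin 3, f (a :: w)) := by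
  induction L generalizing f with
  | zero => simp [sumW]
  | succ L ih =>
    have e : sumW (L + 1 + 1) f = sumW (L + 1) (fun w => ∑ a : Fin 3, f (w ++ [a])) := rfl
    rw [e, ih]
    simp only [sumW]
    apply sumW_congr
    intro w _
    rw [Finset.sum_comm]
    rfl

theorem sumW_add (m n : ℕ) (f : List (Fin 3) → M) :
    sumW (m + n) f = sumW m (fun u => sumW n (fun v => f (u ++ v))) := by
  induction n generalizing f with
  | zero => simp [sumW]
  | succ n ih =>
    have e : sumW (m + (n + 1)) f = sumW (m + n) (fun w => ∑ a : Fin 3, f (w ++ [a])) := rfl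
    rw [e, ih]
    apply sumW_congr
    intro u _
    simp only [sumW]
    apply sumW_congr
    intro v _
    simp only [List.append_assoc]

theorem sumW_single (n : ℕ) (g : List (Fin 3) → M) (w : List (Fin 3)) (hw : w.length = n) :
    sumW n (fun v => if v = w then g v else 0) = g w := by
  induction n generalizing g w with
  | zero =>
    have : w = [] := List.length_eq_zero_iff.1 hw
    subst this
    simp [sumW]
  | succ n ih =>
    rcases List.eq_nil_or_concat w with rfl | ⟨w', c, rfl⟩
    · simp at hw
    · have hw' : w'.length = n := by simpa using hw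
      simp only [sumW, List.concat_eq_append]
      have e : (fun w => ∑ a : Fin 3, if w ++ [a] = w' ++ [c] then g (w ++ [a]) else 0) =
          fun w => if w = w' then g (w ++ [c]) else 0 := by
        funext w
        by_cases h : w = w'
        · subst h
          simp
        · rw [if_neg h]
          apply Finset.sum_eq_zero
          intro a _
          rw [if_neg]
          intro h'
          exact h (List.append_inj_left' h' rfl)
      rw [e]
      exact ih (fun v => g (v ++ [c])) w' hw'

theorem sumW_zero (n : ℕ) : sumW n (fun _ => (0 : M)) = 0 := by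
  induction n with
  | zero => rfl
  | succ n ih =>
    simp only [sumW, Finset.sum_const_zero]
    exact ih

end

theorem sumW_measure_apply {E : Type*} [MeasurableSpace E] (n : ℕ) (F : List (Fin 3) → Measure E)
    (s : Set E) : (sumW n F) s = sumW n (fun w => F w s) := by
  induction n generalizing F with
  | zero => rfl
  | succ n ih =>
    simp only [sumW]
    rw [ih]
    apply sumW_congr
    intro w _
    rw [Measure.finsetSum_apply]

variable {P : List (Fin 3) → ℝ}

/-- Probability of a word, as an extended nonnegative real. -/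
noncomputable def q (P : List (Fin 3) → ℝ) (w : List (Fin 3)) : ℝ≥0∞ := ENNReal.ofReal (P w)

theorem q_nil (hP : WLaw P) : q P [] = 1 := by simp [q, hP.nil]

theorem q_mid (hP : WLaw P) (x y : List (Fin 3)) :
    ∑ a, ∑ b, q P (x ++ a :: b :: y) = q P x * q P y := by
  unfold q
  rw [← ENNReal.ofReal_mul (hP.nonneg x), ← hP.mid x y,
    ENNReal.ofReal_sum_of_nonneg (fun a _ => Finset.sum_nonneg (fun b _ => hP.nonneg _))]
  apply Finset.sum_congr rfl
  intro a _
  rw [ENNReal.ofReal_sum_of_nonneg (fun b _ => hP.nonneg _)]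

theorem q_right (hP : WLaw P) (x : List (Fin 3)) : ∑ a, q P (x ++ [a]) = q P x := by
  unfold q
  rw [← ENNReal.ofReal_sum_of_nonneg (fun a _ => hP.nonneg _), hP.right]

theorem q_left (hP : WLaw P) (y : List (Fin 3)) : ∑ a, q P (a :: y) = q P y := by
  unfold q
  rw [← ENNReal.ofReal_sum_of_nonneg (fun a _ => hP.nonneg _), hP.left]

theorem sumW_q_right (hP : WLaw P) (n : ℕ) (u : List (Fin 3)) :
    sumW n (fun v => q P (u ++ v)) = q P u := by
  induction n with
  | zero => simp [sumW]
  | succ n ih =>
    simp only [sumW]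
    rw [← ih]
    apply sumW_congr
    intro w _
    have := q_right hP (u ++ w)
    simpa [List.append_assoc] using this

theorem sumW_q_left (hP : WLaw P) (n : ℕ) (v : List (Fin 3)) :
    sumW n (fun u => q P (u ++ v)) = q P v := by
  induction n with
  | zero => simp [sumW]
  | succ n ih =>
    rw [sumW_left, ← ih]
    apply sumW_congr
    intro w _
    exact q_left hP (w ++ v)

/-- The window of length `n` starting at `a`. -/
def win (x : ℤ → Fin 3) (a : ℤ) (n : ℕ) : List (Fin 3) :=
  (List.range n).map (fun i : ℕ => x (a + i))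

theorem win_length (x : ℤ → Fin 3) (a : ℤ) (n : ℕ) : (win x a n).length = n := by simp [win]

theorem win_getElem (x : ℤ → Fin 3) (a : ℤ) (n i : ℕ) (h : i < (win x a n).length) :
    (win x a n)[i] = x (a + i) := by simp [win]

theorem win_getD (x : ℤ → Fin 3) (a : ℤ) (n i : ℕ) (h : i < n) :
    (win x a n).getD i 0 = x (a + i) := by
  rw [List.getD_eq_getElem _ _ (by rw [win_length]; exact h), win_getElem]

theorem win_append (x : ℤ → Fin 3) (a : ℤ) (m n : ℕ) :
    win x a (m + n) = win x a m ++ win x (a + m) n := by
  unfold win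
  rw [List.range_add, List.map_append, List.map_map]
  congr 1
  apply List.map_congr_left
  intro i _
  simp only [Function.comp_apply]
  congr 1
  push_cast
  ring

theorem win_one (x : ℤ → Fin 3) (a : ℤ) : win x a 1 = [x a] := by simp [win]

/-- Place a word with its first letter at `c`. -/
def place (c : ℤ) (w : List (Fin 3)) : ℤ → Fin 3 := fun k => w.getD (k - c).toNat 0

theorem win_place (c : ℤ) (w1 w2 w3 : List (Fin 3)) :
    win (place c (w1 ++ (w2 ++ w3))) (c + w1.length) w2.length = w2 := by
  apply List.ext_getElem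
  · rw [win_length]
  · intro i h1 h2
    rw [win_getElem]
    unfold place
    have e : (c + (w1.length : ℤ) + (i : ℤ) - c).toNat = w1.length + i := by omega
    rw [e, List.getD_append_right _ _ _ _ (by omega), List.getD_append _ _ _ _ (by omega)]
    have : w1.length + i - w1.length = i := by omega
    rw [this, List.getD_eq_getElem _ _ h2]

/-- The approximating measures. -/
noncomputable def nu (P : List (Fin 3) → ℝ) (c : ℤ) (L : ℕ) : Measure (ℤ → Fin 3) :=
  sumW L (fun w => q P w • Measure.dirac (place c w))

theorem dependsOn_win (a : ℤ) (n : ℕ) (w : List (Fin 3)) :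
    DependsOn (fun x : ℤ → Fin 3 => x ∈ {x : ℤ → Fin 3 | win x a n = w})
      ((Finset.Ico a (a + n) : Finset ℤ) : Set ℤ) := by
  intro x y hxy
  have : win x a n = win y a n := by
    unfold win
    apply List.map_congr_left
    intro i hi
    apply hxy
    have := List.mem_range.1 hi
    exact Finset.mem_coe.2 (Finset.mem_Ico.2 ⟨by omega, by omega⟩)
  show (win x a n = w) = (win y a n = w)
  rw [this]

theorem measurableSet_win (a : ℤ) (n : ℕ) (w : List (Fin 3)) :
    MeasurableSet {x : ℤ → Fin 3 | win x a n = w} :=
  measurableSet_of_dependsOn' (dependsOn_win a n w)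

theorem nu_win (hP : WLaw P) (c : ℤ) (i m r : ℕ) (u : List (Fin 3)) (hu : u.length = m) :
    nu P c (i + m + r) {x | win x (c + i) m = u} = q P u := by
  unfold nu
  rw [sumW_measure_apply]
  have e1 : ∀ w : List (Fin 3), (q P w • Measure.dirac (place c w)) {x | win x (c + i) m = u} =
      q P w * (if win (place c w) (c + i) m = u then 1 else 0) := by
    intro w
    rw [Measure.smul_apply, Measure.dirac_apply' _ (measurableSet_win _ _ _), smul_eq_mul]
    by_cases h : win (place c w) (c + i) m = u
    · rw [Set.indicator_of_mem (show place c w ∈ {x | win x (c + i) m = u} from h), if_pos h]; rfl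
    · rw [Set.indicator_of_notMem (show place c w ∉ {x | win x (c + i) m = u} from h), if_neg h]
  simp only [e1]
  rw [add_assoc, sumW_add]
  have e2 : sumW i (fun w1 => sumW (m + r) (fun w' => q P (w1 ++ w') *
      (if win (place c (w1 ++ w')) (c + i) m = u then 1 else 0))) =
      sumW i (fun w1 => q P (w1 ++ u)) := by
    apply sumW_congr
    intro w1 hw1
    rw [sumW_add]
    have e3 : sumW m (fun w2 => sumW r (fun w3 => q P (w1 ++ (w2 ++ w3)) *
        (if win (place c (w1 ++ (w2 ++ w3))) (c + i) m = u then 1 else 0))) =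
        sumW m (fun w2 => if w2 = u then q P (w1 ++ w2) else 0) := by
      apply sumW_congr
      intro w2 hw2
      have e4 : ∀ w3, win (place c (w1 ++ (w2 ++ w3))) (c + i) m = w2 := by
        intro w3
        have := win_place c w1 w2 w3
        rwa [hw1, hw2] at this
      simp only [e4]
      by_cases h : w2 = u
      · simp only [if_pos h, mul_one]
        have := sumW_q_right hP r (w1 ++ w2)
        simpa [List.append_assoc] using this
      · simp only [if_neg h, mul_zero]
        exact sumW_zero r
    rw [e3]
    exact sumW_single m (fun w2 => q P (w1 ++ w2)) u hu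
  rw [e2]
  exact sumW_q_left hP i u

theorem nu_prob (hP : WLaw P) (c : ℤ) (L : ℕ) : IsProbabilityMeasure (nu P c L) := by
  constructor
  have h := nu_win hP c 0 0 L [] rfl
  rw [q_nil hP] at h
  have e : {x : ℤ → Fin 3 | win x (c + (0 : ℕ)) 0 = []} = Set.univ := by
    ext x; simp [win]
  rw [e] at h
  rw [show (0 + 0 + L) = L by omega] at h
  exact h

theorem isClopen_of_dependsOn {E : Set (ℤ → Fin 3)} {F : Finset ℤ}
    (h : DependsOn (fun x => x ∈ E) (F : Set ℤ)) : IsClopen E := by
  have e : E = (fun (x : ℤ → Fin 3) (i : F) => x i) ⁻¹'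
      {z : F → Fin 3 | (fun i => if h : i ∈ F then z ⟨i, h⟩ else 0 : ℤ → Fin 3) ∈ E} := by
    ext x
    have : (x ∈ E) = ((fun i => if h : i ∈ F then x i else 0 : ℤ → Fin 3) ∈ E) := by
      apply h
      intro i hi
      have hi' : i ∈ F := hi
      simp [hi']
    rw [Set.mem_preimage]
    show x ∈ E ↔ ((fun i => if h : i ∈ F then x i else 0 : ℤ → Fin 3) ∈ E)
    rw [this]
  rw [e]
  apply IsClopen.preimage (isClopen_discrete _)
  fun_prop

/-- The colouring exists as a measure on two-sided sequences. -/
theorem exists_kappa (hP : WLaw P) : ∃ κ : Measure (ℤ → Fin 3), IsProbabilityMeasure κ ∧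
    ∀ (a : ℤ) (w : List (Fin 3)), κ {x | win x a w.length = w} = q P w := by
  let R : ℕ → ProbabilityMeasure (ℤ → Fin 3) := fun n => ⟨nu P (-n) (2 * n), nu_prob hP _ _⟩
  let 𝒰 : Ultrafilter (ProbabilityMeasure (ℤ → Fin 3)) := (hyperfilter ℕ).map R
  let κ := 𝒰.lim
  have hlim : Tendsto R (hyperfilter ℕ) (𝓝 κ) := 𝒰.le_nhds_lim
  refine ⟨κ, inferInstance, fun a w => ?_⟩
  have hclopen : IsClopen {x : ℤ → Fin 3 | win x a w.length = w} :=
    isClopen_of_dependsOn (dependsOn_win a w.length w)
  have h1 := ProbabilityMeasure.tendsto_measure_of_null_frontier_of_tendsto' hlim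
    (E := {x : ℤ → Fin 3 | win x a w.length = w}) (by rw [hclopen.frontier_eq]; simp)
  have h2 : ∀ᶠ n : ℕ in (hyperfilter ℕ : Filter ℕ),
      (R n : Measure (ℤ → Fin 3)) {x : ℤ → Fin 3 | win x a w.length = w} = q P w := by
    have h3 : ∀ᶠ n : ℕ in atTop,
        (R n : Measure (ℤ → Fin 3)) {x : ℤ → Fin 3 | win x a w.length = w} = q P w := by
      filter_upwards [eventually_ge_atTop (a.natAbs + w.length)] with n hn
      have e1 : a = -(n : ℤ) + ((a + n).toNat : ℤ) := by omega
      have h4 := nu_win hP (-(n : ℤ)) (a + n).toNat w.length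
        (2 * n - (a + n).toNat - w.length) w rfl
      rw [← e1] at h4
      have e2 : (a + n).toNat + w.length + (2 * n - (a + n).toNat - w.length) = 2 * n := by omega
      rw [e2] at h4
      exact h4
    rw [← Nat.cofinite_eq_atTop] at h3
    exact h3.filter_mono hyperfilter_le_cofinite
  exact tendsto_nhds_unique (h1.congr' h2) tendsto_const_nhds

/-- All sets of words are measurable. -/
local instance instMSL : MeasurableSpace (List (Fin 3)) := ⊤

local instance instDMSL : DiscreteMeasurableSpace (List (Fin 3)) := ⟨fun _ => trivial⟩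

theorem measurable_win (a : ℤ) (n : ℕ) : Measurable (fun x : ℤ → Fin 3 => win x a n) := by
  apply measurable_to_countable'
  intro w
  exact measurableSet_win a n w

theorem restrict_eq_win (I : Finset ℤ) : ∃ n : ℕ, ∃ g : List (Fin 3) → (I → Fin 3),
    I.restrict = g ∘ (fun x : ℤ → Fin 3 => win x (-n) (2 * n)) := by
  obtain ⟨n, hn⟩ : ∃ n : ℕ, ∀ i ∈ I, i.natAbs < n :=
    ⟨(I.sup Int.natAbs) + 1, fun i hi => Nat.lt_succ_of_le (Finset.le_sup (f := Int.natAbs) hi)⟩
  refine ⟨n, fun l i => l.getD ((i : ℤ) + n).toNat 0, ?_⟩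
  funext x i
  have hi := hn i i.2
  simp only [Function.comp_apply]
  rw [win_getD _ _ _ _ (by omega)]
  have : -(n : ℤ) + (((i : ℤ) + n).toNat : ℤ) = i := by omega
  rw [this]
  rfl

theorem ext_win {μ ν : Measure (ℤ → Fin 3)} [IsProbabilityMeasure μ] [IsProbabilityMeasure ν]
    (h : ∀ (a : ℤ) (w : List (Fin 3)), μ {x | win x a w.length = w} = ν {x | win x a w.length = w}) :
    μ = ν := by
  have hP : ∀ I : Finset ℤ, IsFiniteMeasure (μ.map (I.restrict : (ℤ → Fin 3) → (I → Fin 3))) :=
    fun I => inferInstance
  refine IsProjectiveLimit.unique (P := fun I : Finset ℤ => μ.map I.restrict) (fun I => rfl)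
    (fun I => ?_)
  obtain ⟨n, g, hg⟩ := restrict_eq_win I
  have hgm : Measurable g := Measurable.of_discrete
  have hwm := measurable_win (-n) (2 * n)
  show ν.map I.restrict = μ.map I.restrict
  rw [hg, ← Measure.map_map hgm hwm, ← Measure.map_map hgm hwm]
  congr 1
  apply Measure.ext_of_singleton
  intro w
  rw [Measure.map_apply hwm (measurableSet_singleton w),
    Measure.map_apply hwm (measurableSet_singleton w)]
  by_cases hw : w.length = 2 * n
  · have := h (-n) w
    rw [hw] at this
    exact this.symm
  · have e : (fun x : ℤ → Fin 3 => win x (-n) (2 * n)) ⁻¹' {w} = ∅ := by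
      ext x
      simp only [Set.mem_preimage, Set.mem_singleton_iff, Set.mem_empty_iff_false, iff_false]
      intro h'
      apply hw
      rw [← h', win_length]
    rw [e]; simp

/-- The shift of two-sided sequences. -/
theorem measurable_shift : Measurable (fun (x : ℤ → Fin 3) (n : ℤ) => x (n + 1)) := by
  fun_prop

theorem win_shift (x : ℤ → Fin 3) (a : ℤ) (n : ℕ) :
    win (fun k => x (k + 1)) a n = win x (a + 1) n := by
  unfold win
  apply List.map_congr_left
  intro i _
  ring_nf

theorem stat_of_win {κ : Measure (ℤ → Fin 3)} [IsProbabilityMeasure κ]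
    (h : ∀ (a : ℤ) (w : List (Fin 3)), κ {x | win x a w.length = w} = q P w) :
    κ.map (fun (x : ℤ → Fin 3) (n : ℤ) => x (n + 1)) = κ := by
  have hp : IsProbabilityMeasure (κ.map (fun (x : ℤ → Fin 3) (n : ℤ) => x (n + 1))) :=
    Measure.isProbabilityMeasure_map measurable_shift.aemeasurable
  apply ext_win
  intro a w
  rw [Measure.map_apply measurable_shift (measurableSet_win _ _ _), h]
  have : (fun (x : ℤ → Fin 3) (n : ℤ) => x (n + 1)) ⁻¹' {x : ℤ → Fin 3 | win x a w.length = w} =
      {x | win x (a + 1) w.length = w} := by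
    ext x
    show win (fun k => x (k + 1)) a w.length = w ↔ win x (a + 1) w.length = w
    rw [win_shift]
  rw [this, h]

theorem proper_of_win (hP : WLaw P) {κ : Measure (ℤ → Fin 3)} [IsProbabilityMeasure κ]
    (h : ∀ (a : ℤ) (w : List (Fin 3)), κ {x | win x a w.length = w} = q P w) :
    ∀ᵐ x ∂κ, ∀ i : ℤ, x i ≠ x (i + 1) := by
  rw [ae_all_iff]
  intro i
  rw [ae_iff]
  have : {x : ℤ → Fin 3 | ¬ x i ≠ x (i + 1)} ⊆
      ⋃ c : Fin 3, {x | win x i [c, c].length = [c, c]} := by
    intro x hx
    have hx' : x i = x (i + 1) := not_not.1 hx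
    rw [Set.mem_iUnion]
    refine ⟨x i, ?_⟩
    show win x i [x i, x i].length = [x i, x i]
    simp [win, List.range_succ, ← hx']
  apply measure_mono_null this
  rw [measure_iUnion_null_iff]
  intro c
  rw [h]
  unfold q
  have hnp : ¬ Proper [c, c] := not_proper_double [] [] c
  rw [hP.improper _ hnp]
  simp

end Pool.Agent.H588R3.TC
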