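import Mathlib
import Pool.Agent.H588R3.TC.Indep

set_option autoImplicit false

open MeasureTheory ProbabilityTheory Filter Topology
open scoped ENNReal

/-!
# Laws of stationary 2-dependent 3-colourings as measures
-/

namespace Pool.Agent.H588R3.TC

/-- `μ` is the law of a stationary 2-dependent 3-colouring of the integers. -/
structure IsColoringLaw (μ : Measure (ℤ → Fin 3)) : Prop where
  prob : IsProbabilityMeasure μ
  stationary : μ.map (fun (x : ℤ → Fin 3) (n : ℤ) => x (n + 1)) = μ
  coloring : ∀ᵐ x ∂μ, ∀ n : ℤ, x n ≠ x (n + 1)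
  dependence : ∀ A B : Set ℤ, (∀ a ∈ A, ∀ b ∈ B, (2 : ℤ) < |a - b|) →
    IndepFun (fun (x : ℤ → Fin 3) (a : A) => x a) (fun (x : ℤ → Fin 3) (b : B) => x b) μ

theorem law_of_win {P : List (Fin 3) → ℝ} (hP : WLaw P) {κ : Measure (ℤ → Fin 3)}
    (hκ : IsProbabilityMeasure κ)
    (h : ∀ (a : ℤ) (w : List (Fin 3)), κ {x | win x a w.length = w} = q P w) :
    IsColoringLaw κ :=
  ⟨hκ, stat_of_win h, proper_of_win hP h, indep_sets hP h⟩

/-- The word probabilities of a measure. -/
noncomputable def wp (μ : Measure (ℤ → Fin 3)) (w : List (Fin 3)) : ℝ :=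
  μ.real {x | win x 0 w.length = w}

variable {μ : Measure (ℤ → Fin 3)}

theorem shift_nat (hμ : IsColoringLaw μ) (n : ℕ) (a : ℤ) (w : List (Fin 3)) :
    μ {x | win x (a + n) w.length = w} = μ {x | win x a w.length = w} := by
  induction n with
  | zero => simp
  | succ n ih =>
    rw [← ih]
    conv_rhs => rw [← hμ.stationary]
    rw [Measure.map_apply measurable_shift (measurableSet_win _ _ _)]
    congr 1
    ext x
    show win x (a + ((n + 1 : ℕ) : ℤ)) w.length = w ↔ win (fun k => x (k + 1)) (a + n) w.length = w
    rw [win_shift]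
    push_cast
    rw [add_assoc]

theorem shift_int (hμ : IsColoringLaw μ) (a : ℤ) (w : List (Fin 3)) :
    μ {x | win x a w.length = w} = μ {x | win x 0 w.length = w} := by
  rcases le_total 0 a with h | h
  · obtain ⟨n, rfl⟩ := Int.eq_ofNat_of_zero_le h
    have := shift_nat hμ n 0 w
    rwa [zero_add] at this
  · have h' : 0 ≤ -a := by omega
    obtain ⟨n, hn⟩ := Int.eq_ofNat_of_zero_le h'
    have := shift_nat hμ n a w
    have e : a + (n : ℤ) = 0 := by omega
    rw [e] at this
    exact this.symm

theorem win_of_law (hμ : IsColoringLaw μ) (a : ℤ) (w : List (Fin 3)) :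
    μ {x | win x a w.length = w} = q (wp μ) w := by
  have := hμ.prob
  rw [shift_int hμ]
  unfold q wp
  rw [ofReal_measureReal]

theorem wp_real (hμ : IsColoringLaw μ) (a : ℤ) (w : List (Fin 3)) :
    μ.real {x | win x a w.length = w} = wp μ w := by
  unfold wp Measure.real
  rw [shift_int hμ]

/-- A one-letter extension splits a cylinder event. -/
theorem iUnion_win (a : ℤ) (u v : List (Fin 3)) :
    {x : ℤ → Fin 3 | win x a u.length = u ∧ win x (a + u.length + 1) v.length = v} =
      ⋃ c : Fin 3, {x | win x a (u ++ c :: v).length = u ++ c :: v} := by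
  ext x
  rw [Set.mem_iUnion]
  have hl : ∀ c : Fin 3, (u ++ c :: v).length = u.length + (1 + v.length) := by
    intro c; simp; omega
  have hsplit : win x a (u.length + (1 + v.length)) =
      win x a u.length ++ ([x (a + u.length)] ++ win x (a + u.length + 1) v.length) := by
    rw [win_append x a u.length, win_append x _ 1, win_one]
    simp
  constructor
  · rintro ⟨h1, h2⟩
    refine ⟨x (a + u.length), ?_⟩
    show win x a (u ++ x (a + u.length) :: v).length = u ++ x (a + u.length) :: v
    rw [hl, hsplit, h1, h2]
    rfl
  · rintro ⟨c, hc⟩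
    have hc' : win x a (u ++ c :: v).length = u ++ c :: v := hc
    rw [hl, hsplit] at hc'
    have h1 := List.append_inj hc' (by rw [win_length])
    refine ⟨h1.1, ?_⟩
    have h2 := h1.2
    simp only [List.singleton_append, List.cons.injEq] at h2
    exact h2.2

theorem sum_win (hμ : IsColoringLaw μ) (a : ℤ) (u v : List (Fin 3)) :
    ∑ c : Fin 3, wp μ (u ++ c :: v) =
      μ.real {x : ℤ → Fin 3 | win x a u.length = u ∧ win x (a + u.length + 1) v.length = v} := by
  have := hμ.prob
  rw [iUnion_win, measureReal_iUnion_fintype]
  · exact Finset.sum_congr rfl (fun c _ => (wp_real hμ a _).symm)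
  · intro c c' hcc'
    rw [Function.onFun, Set.disjoint_left]
    intro x hx hx'
    have h1 : win x a (u ++ c :: v).length = u ++ c :: v := hx
    have h2 : win x a (u ++ c' :: v).length = u ++ c' :: v := hx'
    have hl : (u ++ c :: v).length = (u ++ c' :: v).length := by simp
    rw [hl, h2] at h1
    apply hcc'
    have := List.append_cancel_left h1
    simp only [List.cons.injEq, and_true] at this
    exact this.symm
  · intro c
    exact measurableSet_win _ _ _

/-- A two-letter extension splits a cylinder event. -/
theorem iUnion_win2 (a : ℤ) (u v : List (Fin 3)) :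
    {x : ℤ → Fin 3 | win x a u.length = u ∧ win x (a + u.length + 2) v.length = v} =
      ⋃ c : Fin 3, {x : ℤ → Fin 3 | win x a u.length = u ∧
        win x (a + u.length + 1) (c :: v).length = c :: v} := by
  ext x
  rw [Set.mem_iUnion]
  have hsplit : ∀ c : Fin 3, win x (a + u.length + 1) (c :: v).length =
      [x (a + u.length + 1)] ++ win x (a + u.length + 2) v.length := by
    intro c
    have e : (c :: v).length = 1 + v.length := by simp; omega
    rw [e, win_append x _ 1, win_one]
    congr 2
    push_cast
    ring
  constructor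
  · rintro ⟨h1, h2⟩
    refine ⟨x (a + u.length + 1), h1, ?_⟩
    rw [hsplit, h2]
    rfl
  · rintro ⟨c, hc1, hc2⟩
    rw [hsplit] at hc2
    simp only [List.singleton_append, List.cons.injEq] at hc2
    exact ⟨hc1, hc2.2⟩

local instance instMSL'' : MeasurableSpace (List (Fin 3)) := ⊤

local instance instDMSL'' : DiscreteMeasurableSpace (List (Fin 3)) := ⟨fun _ => trivial⟩

theorem measurable_win'' (a : ℤ) (n : ℕ) : Measurable (fun x : ℤ → Fin 3 => win x a n) := by
  apply measurable_to_countable'
  intro w
  exact measurableSet_win a n w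

theorem win_indep (hμ : IsColoringLaw μ) (a : ℤ) (m n : ℕ) :
    IndepFun (fun x : ℤ → Fin 3 => win x a m) (fun x : ℤ → Fin 3 => win x (a + m + 2) n) μ := by
  let A : Set ℤ := Set.Ico a (a + m)
  let B : Set ℤ := Set.Ico (a + m + 2) (a + m + 2 + n)
  have hd : ∀ i ∈ A, ∀ j ∈ B, (2 : ℤ) < |i - j| := by
    intro i hi j hj
    have h1 := hi.2
    have h2 := hj.1
    rw [abs_of_nonpos (by linarith)]
    linarith
  have key := hμ.dependence A B hd
  have e1 : (fun x : ℤ → Fin 3 => win x a m) =
      (fun (z : A → Fin 3) => (List.range m).map (fun i : ℕ =>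
        if h : (a + i) ∈ A then z ⟨a + i, h⟩ else 0)) ∘ (fun (x : ℤ → Fin 3) (i : A) => x i) := by
    funext x
    simp only [Function.comp_apply, win]
    apply List.map_congr_left
    intro i hi
    have h1 := List.mem_range.1 hi
    have h2 : (a + (i : ℤ)) ∈ A := ⟨by omega, by omega⟩
    rw [dif_pos h2]
  have e2 : (fun x : ℤ → Fin 3 => win x (a + m + 2) n) =
      (fun (z : B → Fin 3) => (List.range n).map (fun i : ℕ =>
        if h : (a + m + 2 + i) ∈ B then z ⟨a + m + 2 + i, h⟩ else 0)) ∘
          (fun (x : ℤ → Fin 3) (i : B) => x i) := by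
    funext x
    simp only [Function.comp_apply, win]
    apply List.map_congr_left
    intro i hi
    have h1 := List.mem_range.1 hi
    have h2 : (a + m + 2 + (i : ℤ)) ∈ B := ⟨by omega, by omega⟩
    rw [dif_pos h2]
  have hA : Finite A := (Set.finite_Ico _ _)
  have hB : Finite B := (Set.finite_Ico _ _)
  have : DiscreteMeasurableSpace (A → Fin 3) := MeasurableSingletonClass.toDiscreteMeasurableSpace
  have : DiscreteMeasurableSpace (B → Fin 3) := MeasurableSingletonClass.toDiscreteMeasurableSpace
  rw [e1, e2]
  exact key.comp Measurable.of_discrete Measurable.of_discrete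

theorem wlaw_of_law (hμ : IsColoringLaw μ) : WLaw (wp μ) := by
  have hp := hμ.prob
  refine ⟨?_, ?_, ?_, ?_, ?_, ?_⟩
  · intro w
    exact measureReal_nonneg
  · unfold wp
    have e : {x : ℤ → Fin 3 | win x 0 ([] : List (Fin 3)).length = []} = Set.univ := by
      ext x; simp [win]
    rw [e]; simp
  · intro w hw
    unfold wp Measure.real
    have : μ {x | win x 0 w.length = w} = 0 := by
      have h := hμ.coloring
      rw [ae_iff] at h
      apply measure_mono_null _ h
      intro x hx hx'
      apply hw
      have hx2 : win x 0 w.length = w := hx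
      rw [← hx2]
      unfold Proper win
      rw [List.isChain_iff_getElem]
      intro i hi
      simp only [List.getElem_map, List.getElem_range]
      have := hx' (0 + (i : ℤ))
      push_cast
      rw [← add_assoc]
      exact this
    rw [this]; simp
  · intro w
    have h := sum_win hμ (-1) [] w
    simp only [List.nil_append, List.length_nil] at h
    rw [h, ← wp_real hμ 0 w]
    congr 1
    ext x
    simp [win]
  · intro w
    have h := sum_win hμ 0 w []
    rw [h]
    unfold wp
    congr 1
    ext x
    simp [win]
  · intro u v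
    have hpw : ∀ c : Fin 3, ∑ d : Fin 3, wp μ (u ++ c :: d :: v) =
        ∑ d : Fin 3, wp μ ((u ++ [c]) ++ d :: v) := by
      intro c
      apply Finset.sum_congr rfl
      intro d _
      simp
    -- sum over `c` of `wp (u ++ c :: (d :: v))`
    rw [Finset.sum_comm]
    have h1 : ∀ d : Fin 3, ∑ c : Fin 3, wp μ (u ++ c :: d :: v) =
        μ.real {x : ℤ → Fin 3 | win x 0 u.length = u ∧
          win x (0 + u.length + 1) (d :: v).length = d :: v} := by
      intro d
      exact sum_win hμ 0 u (d :: v)
    simp only [h1]
    have h2 := iUnion_win2 0 u v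
    have h3 : μ.real {x : ℤ → Fin 3 | win x 0 u.length = u ∧
        win x (0 + u.length + 2) v.length = v} = ∑ d : Fin 3, μ.real {x : ℤ → Fin 3 |
          win x 0 u.length = u ∧ win x (0 + u.length + 1) (d :: v).length = d :: v} := by
      rw [h2, measureReal_iUnion_fintype]
      · intro c c' hcc'
        rw [Function.onFun, Set.disjoint_left]
        intro x hx hx'
        have h4 : win x (0 + u.length + 1) (c :: v).length = c :: v := hx.2
        have h5 : win x (0 + u.length + 1) (c' :: v).length = c' :: v := hx'.2
        have hl : (c :: v).length = (c' :: v).length := by simp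
        rw [hl, h5] at h4
        apply hcc'
        simp only [List.cons.injEq, and_true] at h4
        exact h4.symm
      · intro c
        exact (measurableSet_win _ _ _).inter (measurableSet_win _ _ _)
    rw [← h3, ← wp_real hμ (0 + u.length + 2) v]
    unfold wp
    have h6 := (win_indep hμ 0 u.length v.length).measure_inter_preimage_eq_mul
      {u} {v} MeasurableSet.of_discrete MeasurableSet.of_discrete
    unfold Measure.real
    rw [← ENNReal.toReal_mul]
    congr 1

end Pool.Agent.H588R3.TC
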