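import Mathlib
import Pool.Agent.H588R3.TC.Space

set_option autoImplicit false

open Polynomial

/-!
# The semigroup property of the insertion flow
-/

namespace Pool.Agent.H588R3.TC

variable {P : List (Fin 3) → ℝ}

theorem poly_ext' {A B : Polynomial ℝ} (hd : derivative A = derivative B)
    (h0 : A.eval 0 = B.eval 0) : A = B := by
  ext k
  cases k with
  | zero => rw [coeff_zero_eq_eval_zero, coeff_zero_eq_eval_zero, h0]
  | succ k =>
    have h := congrArg (fun p => coeff p k) hd
    simp only [coeff_derivative] at h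
    have hk : ((k : ℝ) + 1) ≠ 0 := by positivity
    exact mul_right_cancel₀ hk h

theorem pol_improper (hP : WLaw P) {w : List (Fin 3)} (hw : ¬ Proper w) : pol P w = 0 := by
  ext k
  rw [coeff_pol hP, C_improper hP k hw, coeff_zero]

theorem derivative_pol (hP : WLaw P) {w : List (Fin 3)} (hw : w ≠ []) (hp : Proper w) :
    derivative (pol P w) = ∑ i ∈ Finset.range w.length, pol P (w.eraseIdx i) := by
  ext k
  rw [coeff_derivative, finsetSum_coeff]
  simp only [coeff_pol hP]
  have h := C_succ (P := P) k hw hp
  rw [sdel_eq_sum] at h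
  rw [← h]
  ring

theorem pol_flow (hP : WLaw P) {t : ℝ} (ht : 0 ≤ t) (n : ℕ) : ∀ w : List (Fin 3), w.length = n →
    pol (flow P t) w * Polynomial.C ((1 + t) ^ (n + 2)) =
      (pol P w).comp (Polynomial.C (1 + t) * X + Polynomial.C t) := by
  have hQ := flow_law hP ht
  have h1 : (1 + t) ≠ 0 := by positivity
  induction n with
  | zero =>
    intro w hw
    have : w = [] := List.length_eq_zero_iff.1 hw
    subst this
    rw [pol_nil hQ, pol_nil hP]
    simp only [pow_comp, add_comp, one_comp, X_comp, map_add, map_one, map_pow]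
    ring
  | succ n ih =>
    intro w hw
    have hw0 : w ≠ [] := by rintro rfl; simp at hw
    by_cases hp : Proper w
    · apply poly_ext'
      · rw [derivative_mul, derivative_C, mul_zero, add_zero, derivative_comp,
          derivative_pol hQ hw0 hp, derivative_pol hP hw0 hp]
        have e1 : derivative (Polynomial.C (1 + t) * X + Polynomial.C t : Polynomial ℝ) =
            Polynomial.C (1 + t) := by
          rw [derivative_add, derivative_C, add_zero, derivative_C_mul, derivative_X, mul_one]
        rw [e1, Polynomial.sum_comp, Finset.sum_mul, Finset.mul_sum]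
        apply Finset.sum_congr rfl
        intro i hi
        have hi' := Finset.mem_range.1 hi
        rw [← ih (w.eraseIdx i) (by rw [List.length_eraseIdx_of_lt hi']; omega)]
        have e2 : (1 + t) ^ (n + 1 + 2) = (1 + t) * (1 + t) ^ (n + 2) := by ring
        rw [e2, Polynomial.C_mul]
        ring
      · rw [eval_mul, eval_C, ← coeff_zero_eq_eval_zero, coeff_pol hQ, eval_comp]
        simp only [eval_add, eval_mul, eval_C, eval_X, mul_zero, zero_add]
        show flow P t w * _ = _
        unfold flow
        rw [hw]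
        field_simp
    · rw [pol_improper hQ hp, pol_improper hP hp]
      simp

theorem flow_flow (hP : WLaw P) {s t : ℝ} (hs : 0 ≤ s) (ht : 0 ≤ t) (w : List (Fin 3)) :
    flow (flow P t) s w = flow P (t + s + t * s) w := by
  have h := congrArg (Polynomial.eval s) (pol_flow hP ht w.length w rfl)
  rw [eval_mul, eval_C, eval_comp] at h
  simp only [eval_add, eval_mul, eval_C, eval_X] at h
  have h1 : (1 + t) ≠ 0 := by positivity
  have h2 : (1 + s) ≠ 0 := by positivity
  have e : (1 + t) * s + t = t + s + t * s := by ring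
  rw [e] at h
  have e2 : 1 + (t + s + t * s) = (1 + t) * (1 + s) := by ring
  have e3 : flow P (t + s + t * s) w =
      (pol P w).eval (t + s + t * s) / (1 + (t + s + t * s)) ^ (w.length + 2) := rfl
  have e4 : flow (flow P t) s w = (pol (flow P t) w).eval s / (1 + s) ^ (w.length + 2) := rfl
  rw [e3, e4, ← h, e2, mul_pow]
  field_simp

theorem fl_fl (hP : WLaw P) {u v : ℝ} (hu : 0 ≤ u) (hu1 : u ≤ 1) (hv : 0 ≤ v) (hv1 : v ≤ 1) :
    fl (fl P u) v = fl P (u * v) := by
  rcases hu.eq_or_lt with rfl | hu
  · rw [fl_zero hP, zero_mul, fl_zero hP]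
    exact fl_hl hl_wlaw v
  rcases hv.eq_or_lt with rfl | hv
  · rw [mul_zero, fl_zero hP, fl_zero (fl_law hP hu.le hu1)]
  funext w
  have h1 : (0 : ℝ) ≤ (1 - u) / u := div_nonneg (by linarith) hu.le
  have h2 : (0 : ℝ) ≤ (1 - v) / v := div_nonneg (by linarith) hv.le
  have e : fl P u = flow P ((1 - u) / u) := by funext w; exact fl_eq_flow hu w
  rw [fl_eq_flow hv, e, flow_flow hP h2 h1, fl_eq_flow (mul_pos hu hv)]
  congr 1
  field_simp
  ring

end Pool.Agent.H588R3.TC
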